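import Pool.Agent.U79.GY.Stm
import Pool.Agent.Y710.CQ.BIL

/-! Project GY (helper79), package BIL (helper502): bilinear sums of quadratic symbols, all odd primes. -/

set_option autoImplicit false

open Finset

namespace Pool.Agent.U502.GY

open Pool.Agent.U79.GY Pool.Agent.Y710.CQ
open Pool.Agent.Y703.CQ (nr sg)

/-- `1` if `p` is `1` modulo `4`, otherwise `-1` -/
noncomputable def ap (p : ℕ) : ℂ := if p % 4 = 1 then 1 else -1

theorem ap_norm (p : ℕ) : ‖ap p‖ ≤ 1 := by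
  unfold ap
  split_ifs <;> simp

/-- quadratic reciprocity -/
theorem rec_xi {p q : ℕ} (hp : p.Prime) (hq : q.Prime) (hp2 : p ≠ 2) (hq2 : q ≠ 2) :
    xi p q = (1 + ap p + ap q - ap p * ap q) / 2 * xi q p := by
  have op : p % 2 = 1 := by
    rcases hp.eq_two_or_odd with h | h
    · exact absurd h hp2
    · exact h
  have oq : q % 2 = 1 := by
    rcases hq.eq_two_or_odd with h | h
    · exact absurd h hq2
    · exact h
  have Oq := hq.odd_of_ne_two hq2
  have Op := hp.odd_of_ne_two hp2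
  unfold xi ap
  by_cases h1 : p % 4 = 1
  · rw [if_pos h1, jacobiSym.quadratic_reciprocity_one_mod_four (a := p) (b := q) h1 Oq]
    split_ifs <;> ring
  · by_cases h2 : q % 4 = 1
    · rw [if_neg h1, if_pos h2, jacobiSym.quadratic_reciprocity_one_mod_four (a := q) (b := p) h2 Op]
      ring
    · rw [if_neg h1, if_neg h2, jacobiSym.quadratic_reciprocity_three_mod_four (a := p) (b := q) (by omega)
        (by omega)]
      push_cast
      ring

theorem t_BIL : S_BIL := by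
  refine ⟨4096 * (3 * 6 ^ 6), by norm_num, ?_⟩
  intro P Q A B z c d hP hQ hdis hz hzA hzB hc hd
  have hne : ∀ p ∈ P, ∀ q ∈ Q, p ≠ q := fun p hp q hq he =>
    (Finset.disjoint_left.1 hdis) hp (he ▸ hq)
  have hzr : (1 : ℝ) ≤ z := by exact_mod_cast hz
  rcases le_total B A with hBA | hAB
  · obtain ⟨K, hK⟩ : ∃ K : ℝ, K = 3 * 6 ^ 6 * ((B : ℝ) ^ 11 * (A : ℝ) ^ 12) := ⟨_, rfl⟩
    have hK0 : 0 ≤ K := by rw [hK]; positivity
    obtain ⟨t, ht⟩ : ∃ t : ℝ, t = K ^ ((1 : ℝ) / 12) := ⟨_, rfl⟩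
    have ht0 : 0 ≤ t := by rw [ht]; positivity
    have ht12 : t ^ 12 = K := by
      rw [ht, ← Real.rpow_natCast, ← Real.rpow_mul hK0]
      norm_num
    have four : ∀ c' d' : ℕ → ℂ, (∀ p, ‖c' p‖ ≤ 1) → (∀ q, ‖d' q‖ ≤ 1) →
        ‖∑ q ∈ Q, ∑ p ∈ P, d' q * c' p * xi q p‖ ≤ t := by
      intro c' d' hc' hd'
      have h := bil (hz.trans hzB) hBA hQ hP d' c' hd' hc'
      rw [← hK, ← ht12] at h
      exact le_of_pow_le_pow_left₀ (by norm_num) ht0 h
    have mulle : ∀ x y : ℂ, ‖x‖ ≤ 1 → ‖y‖ ≤ 1 → ‖x * y‖ ≤ 1 := by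
      intro x y hx hy
      rw [norm_mul]
      exact mul_le_one₀ hx (norm_nonneg _) hy
    have s1 := four c d hc hd
    have s2 := four (fun p => c p * ap p) d (fun p => mulle _ _ (hc p) (ap_norm p)) hd
    have s3 := four c (fun q => d q * ap q) hc (fun q => mulle _ _ (hd q) (ap_norm q))
    have s4 := four (fun p => c p * ap p) (fun q => d q * ap q)
      (fun p => mulle _ _ (hc p) (ap_norm p)) (fun q => mulle _ _ (hd q) (ap_norm q))
    have e1 : ∑ p ∈ P, ∑ q ∈ Q, c p * d q * sg (nr p q) =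
        (1 / 2) * (∑ q ∈ Q, ∑ p ∈ P, d q * c p * xi q p) +
        (1 / 2) * (∑ q ∈ Q, ∑ p ∈ P, d q * (c p * ap p) * xi q p) +
        (1 / 2) * (∑ q ∈ Q, ∑ p ∈ P, (d q * ap q) * c p * xi q p) -
        (1 / 2) * (∑ q ∈ Q, ∑ p ∈ P, (d q * ap q) * (c p * ap p) * xi q p) := by
      rw [sum_comm]
      simp only [mul_sum]
      rw [← sum_add_distrib, ← sum_add_distrib, ← sum_sub_distrib]
      refine sum_congr rfl fun q hq => ?_
      rw [← sum_add_distrib, ← sum_add_distrib, ← sum_sub_distrib]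
      refine sum_congr rfl fun p hp => ?_
      obtain ⟨p1, p2, -⟩ := hP p hp
      obtain ⟨q1, q2, -⟩ := hQ q hq
      rw [sg_xi p1 q1 (hne p hp q hq), rec_xi p1 q1 p2 q2]
      ring
    have e2 : ‖∑ p ∈ P, ∑ q ∈ Q, c p * d q * sg (nr p q)‖ ≤ 2 * t := by
      rw [e1]
      refine (norm_sub_le _ _).trans ?_
      refine (add_le_add_left ((norm_add_le _ _).trans (add_le_add_left (norm_add_le _ _) _)) _).trans ?_
      have hh : ∀ x : ℂ, ‖(1 / 2 : ℂ) * x‖ = ‖x‖ / 2 := by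
        intro x
        rw [norm_mul]
        norm_num
        ring
      rw [hh, hh, hh, hh]
      linarith
    have h2 : (z : ℝ) ≤ B := by exact_mod_cast hzB
    calc ‖∑ p ∈ P, ∑ q ∈ Q, c p * d q * sg (nr p q)‖ ^ 12 * z ≤ (2 * t) ^ 12 * B := by
          apply mul_le_mul (pow_le_pow_left₀ (norm_nonneg _) e2 12) h2 (by positivity) (by positivity)
      _ = 4096 * (3 * 6 ^ 6) * ((A : ℝ) * B) ^ 12 := by
          rw [mul_pow, ht12, hK]
          ring
  · have e1 : ∑ p ∈ P, ∑ q ∈ Q, c p * d q * sg (nr p q) =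
        ∑ p ∈ P, ∑ q ∈ Q, c p * d q * xi p q := by
      refine sum_congr rfl fun p hp => sum_congr rfl fun q hq => ?_
      rw [sg_xi (hP p hp).1 (hQ q hq).1 (hne p hp q hq)]
    rw [e1]
    have h1 := bil (hz.trans hzA) hAB hP hQ c d hc hd
    have h2 : (z : ℝ) ≤ A := by exact_mod_cast hzA
    calc ‖∑ p ∈ P, ∑ q ∈ Q, c p * d q * xi p q‖ ^ 12 * z ≤
        (3 * 6 ^ 6 * ((A : ℝ) ^ 11 * (B : ℝ) ^ 12)) * A := by
          apply mul_le_mul h1 h2 (by positivity) (by positivity)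
      _ = (3 * 6 ^ 6) * ((A : ℝ) * B) ^ 12 := by ring
      _ ≤ 4096 * (3 * 6 ^ 6) * ((A : ℝ) * B) ^ 12 := by
          have : 0 ≤ ((A : ℝ) * B) ^ 12 := by positivity
          nlinarith

end Pool.Agent.U502.GY
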